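import Mathlib

set_option autoImplicit false

namespace Pool.Agent.H.MP_d7a99c_co

open MeasureTheory Set

def X : List (ℤ × ℤ) := [(-249, -197), (244, 203), (-316, -25), (283, -144), (-248, 196), (21, -317), (-13, 317), (-267, 171), (-278, -153), (310, 66), (144, -283), (-288, -133), (-267, -172), (314, 48), (-258, 184), (-314, -50), (267, -172), (250, -196), (286, 139), (-310, -68), (256, -186), (-58, 312), (277, 155), (316, 28), (144, -16), (-142, 16), (-146, 282), (61, -312), (270, 168)]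

def p1 (q : ℤ × ℤ) : ℤ := 3 * q.1 + 4 * q.2
def p2 (q : ℤ × ℤ) : ℤ := 12 * q.1 + 35 * q.2
def p3 (q : ℤ × ℤ) : ℤ := -12 * q.1 + 5 * q.2

def unc (a b q : ℤ × ℤ) : Bool :=
  !(decide (p1 a ≤ p1 q) && decide (p1 q ≤ p1 a + 1150)) &&
    !(decide (p2 b ≤ p2 q) && decide (p2 q ≤ p2 b + 11840))

lemma chk : (X.all fun a => X.all fun b => (X.filter (unc a b)).any fun q =>
    (X.filter (unc a b)).any fun q' => decide (p3 q + 5850 < p3 q')) = true := by
  decide +kernel

lemma chk2 : (X.all fun q => decide (q.1 ^ 2 + q.2 ^ 2 ≤ 318 ^ 2)) = true := by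
  decide +kernel

lemma window (p : ℤ × ℤ → ℤ) (c W : ℝ) :
    ∃ a ∈ X, ∀ q ∈ X, c ≤ p q → (p q : ℝ) ≤ c + W → p a ≤ p q ∧ (p q : ℝ) ≤ p a + W := by
  classical
  by_cases h : (X.toFinset.filter (fun q => c ≤ p q)).Nonempty
  · obtain ⟨a, ha, ha2⟩ := Finset.exists_min_image _ p h
    rw [Finset.mem_filter, List.mem_toFinset] at ha
    refine ⟨a, ha.1, fun q hq h1 h2 =>
      ⟨ha2 q (Finset.mem_filter.2 ⟨List.mem_toFinset.2 hq, h1⟩), by linarith [ha.2]⟩⟩
  · refine ⟨(-249, -197), by simp [X], fun q hq h1 _ => ?_⟩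
    exact absurd ⟨q, Finset.mem_filter.2 ⟨List.mem_toFinset.2 hq, h1⟩⟩ h

lemma nocover (a b c : ℝ) (h : ∀ q ∈ X, (a ≤ p1 q ∧ (p1 q : ℝ) ≤ a + 1150) ∨
    (b ≤ p2 q ∧ (p2 q : ℝ) ≤ b + 11840) ∨ (c ≤ p3 q ∧ (p3 q : ℝ) ≤ c + 5850)) : False := by
  obtain ⟨a', ha, ha2⟩ := window p1 a 1150
  obtain ⟨b', hb, hb2⟩ := window p2 b 11840
  have h1 := List.all_eq_true.1 (List.all_eq_true.1 chk a' ha) b' hb
  obtain ⟨q, hq, h2⟩ := List.any_eq_true.1 h1
  obtain ⟨q', hq', h3⟩ := List.any_eq_true.1 h2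
  have key : ∀ z ∈ X.filter (unc a' b'), c ≤ p3 z ∧ (p3 z : ℝ) ≤ c + 5850 := by
    intro z hz
    rw [List.mem_filter] at hz
    have h4 := hz.2
    simp only [unc, Bool.and_eq_true, Bool.not_eq_true', Bool.and_eq_false_iff,
      decide_eq_false_iff_not] at h4
    rcases h z hz.1 with g | g | g
    · have g2 := ha2 z hz.1 g.1 g.2
      have g3 : p1 z ≤ p1 a' + 1150 := by exact_mod_cast g2.2
      rcases h4.1 with k | k
      · exact absurd g2.1 k
      · exact absurd g3 k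
    · have g2 := hb2 z hz.1 g.1 g.2
      have g3 : p2 z ≤ p2 b' + 11840 := by exact_mod_cast g2.2
      rcases h4.2 with k | k
      · exact absurd g2.1 k
      · exact absurd g3 k
    · exact g
  have h5 : (p3 q : ℝ) + 5850 < p3 q' := by exact_mod_cast of_decide_eq_true h3
  linarith [(key q hq).1, (key q' hq').2]

lemma circ : Measure.hausdorffMeasure 1
    (Metric.sphere (0 : EuclideanSpace ℝ (Fin 2)) (318 / 1000)) ≤ 2 := by
  let f : ℝ → EuclideanSpace ℝ (Fin 2) := fun t =>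
    !₂[318 / 1000 * Real.cos t, 318 / 1000 * Real.sin t]
  have hf : LipschitzWith (318 / 1000) f := by
    refine LipschitzWith.of_dist_le_mul fun s t => ?_
    rw [EuclideanSpace.dist_eq, Fin.sum_univ_two, Real.dist_eq, Real.dist_eq, Real.dist_eq,
      sq_abs, sq_abs]
    refine Real.sqrt_le_iff.2 ⟨by positivity, ?_⟩
    have h1 := Real.one_sub_sq_div_two_le_cos (x := s - t)
    rw [Real.cos_sub] at h1
    have h2 := Real.sin_sq_add_cos_sq s
    have h3 := Real.sin_sq_add_cos_sq t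
    simp only [f, Matrix.cons_val_zero, Matrix.cons_val_one]
    push_cast
    rw [mul_pow, sq_abs]
    nlinarith
  have hs : Metric.sphere (0 : EuclideanSpace ℝ (Fin 2)) (318 / 1000) ⊆
      f '' Icc (-Real.pi) Real.pi := by
    intro p hp
    rw [mem_sphere_zero_iff_norm, EuclideanSpace.norm_eq, Fin.sum_univ_two, Real.norm_eq_abs,
      Real.norm_eq_abs, sq_abs, sq_abs] at hp
    have hz : ‖(⟨p 0, p 1⟩ : ℂ)‖ = 318 / 1000 := by
      rw [Complex.norm_eq_sqrt_sq_add_sq]; exact hp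
    have hz0 : (⟨p 0, p 1⟩ : ℂ) ≠ 0 := by
      intro h; rw [h] at hz; norm_num at hz
    refine ⟨Complex.arg ⟨p 0, p 1⟩, ⟨(Complex.neg_pi_lt_arg _).le, Complex.arg_le_pi _⟩, ?_⟩
    ext i
    fin_cases i
    · simp only [f, Complex.cos_arg hz0, hz]; simp; ring
    · simp only [f, Complex.sin_arg, hz]; simp; ring
  refine (measure_mono hs).trans ((hf.hausdorffMeasure_image_le zero_le_one _).trans ?_)
  rw [hausdorffMeasure_real, Real.volume_Icc, ENNReal.rpow_one,
    ← ENNReal.ofReal_coe_nnreal, ← ENNReal.ofReal_mul (by positivity), ← ENNReal.ofReal_ofNat 2]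
  refine ENNReal.ofReal_le_ofReal ?_
  push_cast
  nlinarith [Real.pi_lt_d4]

end Pool.Agent.H.MP_d7a99c_co
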